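import Mathlib
import Pool.Agent.Q11.HL.Final

/-!
# Uniform growth of solvable groups of bounded Hirsch length

The growth gap holds, unconditionally, for all solvable groups of Hirsch length at most `h`, with a
gap that depends on `h` only: there is no restriction on the derived length and none on the torsion
of the factors of the derived series, which may be infinite.

Idea of the proof.  Let `A = G^{(i)}` and suppose that `G / A` is virtually nilpotent.  Let `T / A'`
be the torsion subgroup of `A / A'`.  The action of `G` on the space of all additive maps from `A` to
`ℂ`, which has dimension at most `h`, gives either a lower bound for the growth rate or that `G / T`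
is virtually nilpotent.  In the second case a subgroup `K / T` of index at most `3 ^ (h ^ 3)` in
`G / T` is finite-by-nilpotent: the group `G / T` modulo its largest finite normal subgroup acts on
the factors of the upper central series of a nilpotent normal subgroup of finite index, which are
free abelian of rank at most `h`, through finite groups, and by Minkowski's lemma these embed in the
automorphism groups of the factors modulo `3`; then Baer's theorem applies.  So `K / A'` is
torsion-by-nilpotent, and an absolute gap is available for it.
-/

set_option autoImplicit false

namespace Pool.Agent.Results.MP_d69e80_al.BoundedHirschLength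

open Filter Topology
open scoped Pointwise

universe u

/-- `G` is solvable of Hirsch length at most `h`: the derived series reaches `1` after `r` steps, for
some `r`, and the sum of the torsion-free ranks of the factors `G^{(i)} / G^{(i+1)}`, `i < r`, is at
most `h`. -/
def HirschLengthAtMost (G : Type u) [Group G] (h : ℕ) : Prop :=
  ∃ r : ℕ, derivedSeries G r = ⊥ ∧
    ∑ i ∈ Finset.range r, Module.rank ℤ (Additive (Abelianization (derivedSeries G i))) ≤
      (h : Cardinal.{u})

/-- There is an absolute constant `c > 0` such that, for every finite generating set `S` of a group
`G` with a solvable subgroup `H` of index at most `q` and Hirsch length at most `h` (`h ≥ 1`), the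
growth rate `ρ_S = lim (1/n) log |S ^ n|` exists and either `G` is virtually nilpotent or
`ρ_S ≥ c / (q 3 ^ (h ^ 3))`. -/
theorem result :
    ∃ c : ℝ, 0 < c ∧
      ∀ (G : Type u) [Group G] (S : Set G) (H : Subgroup G) (q h : ℕ), S.Finite →
      Subgroup.closure S = ⊤ → H.index ≠ 0 → H.index ≤ q → 1 ≤ h → HirschLengthAtMost H h →
      ∃ ρ : ℝ, Tendsto (fun n : ℕ => Real.log (Nat.card ↥(S ^ n)) / n) atTop (𝓝 ρ) ∧
        (Group.IsVirtuallyNilpotent G ∨ c / (q * 3 ^ (h ^ 3)) ≤ ρ) := by
  obtain ⟨c, hc, hf⟩ := Pool.Agent.Q11.HL.final.{u}
  refine ⟨c, hc, ?_⟩
  rintro G _ S H q h hfin hgen hH0 hHq hh ⟨r, hr, hsum⟩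
  exact ⟨_, Pool.Agent.H746UG.tendsto_rho S, hf G S H q h r hfin hgen hH0 hHq hh hr hsum⟩

end Pool.Agent.Results.MP_d69e80_al.BoundedHirschLength
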