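import Mathlib
import Pool.Agent.Q262.UG.Iso

/-!
# The growth gap for extensions of lattices by isometries of indefinite forms

Let `G` be an integral symmetric matrix, nondegenerate with `r` negative squares, of any size `n`,
and `A` an isometry of the lattice `ℤ^n` with the form `G`, or more generally an invertible integer
matrix with `(A x, A x) ≤ (x, x)`.  Suppose that `A` moves some rational negative definite
`r`-plane, spanned by lattice vectors with Gram determinant at most `Δ` in absolute value, by a
bounded amount `c`.  The theorem gives a number `κ > 0`, depending only on `r`, `c` and `Δ`, such that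
for all groups `Γ` with a subgroup of index at most `d` which is an extension of `ℤ^n` by a cyclic
group acting through `A`, and for ALL finite generating sets `S` of `Γ`, the growth rate `ρ_S` is at
least `κ / (2 d - 1)`, or `Γ` is virtually nilpotent.  The rank `n`, the discriminant and the size of
`S` are arbitrary.

Method.  (1) For every abelian normal subgroup `L` with cyclic quotient, for every finite generating
set and for EVERY eigenvalue `z` of the action on `L` (not only for some eigenvalue) the growth rate is
at least a third of the growth rate of the digit sums of a nontrivial power of `z`: the library's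
reduction is applied to the kernel of an eigenfunctional of `z`.  For the powers `z ^ b`, `b ≠ 0`, of an
algebraic unit `M(z ^ b) ≥ M(z)`.  (2) By the theorem on Lehmer's problem for such matrices (helper262,
`MP_dc0c68_nt.IndefiniteLattices`) the characteristic polynomial of `A` has Mahler measure one or at
least `μ > 1`.  (3) At most `r` eigenvalues, counted with multiplicity, are outside the unit disc:
on the space of the vectors with a backward orbit tending to zero the form is not positive.  Hence some
eigenvalue has absolute value at least `μ ^ (1/(r+1))`.  (4) If all eigenvalues are roots of unity then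
the group is virtually nilpotent.
-/

set_option autoImplicit false

namespace Pool.Agent.Results.MP_d69e80_al.LatticeIsometries

open Filter Topology
open scoped Pointwise

universe u

noncomputable section

/-- The symmetric bilinear form with the integral Gram matrix `G`. -/
def form {n : ℕ} (G : Matrix (Fin n) (Fin n) ℤ) (x y : Fin n → ℝ) : ℝ :=
  ∑ i, ∑ j, (G i j : ℝ) * x i * y j

/-- The linear combination of the lattice vectors `v k` with the real coefficients `c k`. -/
def comb {n r : ℕ} (v : Fin r → Fin n → ℤ) (c : Fin r → ℝ) : Fin n → ℝ :=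
  fun i => ∑ k, c k * (v k i : ℝ)

/-- The image of the real vector `x` under the integer matrix `A`. -/
def image {n : ℕ} (A : Matrix (Fin n) (Fin n) ℤ) (x : Fin n → ℝ) : Fin n → ℝ :=
  fun i => ∑ j, (A i j : ℝ) * x j

/-- The Gram matrix of the lattice vectors `v k`. -/
def gram {n r : ℕ} (G : Matrix (Fin n) (Fin n) ℤ) (v : Fin r → Fin n → ℤ) :
    Matrix (Fin r) (Fin r) ℤ :=
  Matrix.of fun i j => ∑ a, ∑ b, G a b * v i a * v j b

/-- The form is symmetric, negative definite on the span of the lattice vectors `v k` (which are
linearly independent) and positive definite on its orthogonal complement. In particular it is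
nondegenerate with exactly `r` negative squares. -/
structure IsNegativeBasis {n r : ℕ} (G : Matrix (Fin n) (Fin n) ℤ) (v : Fin r → Fin n → ℤ) :
    Prop where
  symmetric : G.transpose = G
  negative : ∀ c : Fin r → ℝ, c ≠ 0 → form G (comb v c) (comb v c) < 0
  positive : ∀ x : Fin n → ℝ, x ≠ 0 → (∀ c, form G (comb v c) x = 0) → 0 < form G x x

/-- The integer matrix `A` does not increase the form; for instance it is an isometry. -/
def IsNonincreasing {n : ℕ} (G A : Matrix (Fin n) (Fin n) ℤ) : Prop :=
  ∀ x : Fin n → ℝ, form G (image A x) (image A x) ≤ form G x x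

/-- The matrix `A` moves the span of the `v k` by a bounded amount. -/
def HasDisplacement (c : ℝ) {n r : ℕ} (G A : Matrix (Fin n) (Fin n) ℤ) (v : Fin r → Fin n → ℤ) :
    Prop :=
  ∀ s t : Fin r → ℝ, form G (comb v s) (image A (comb v t)) ^ 2 ≤
    c * (form G (comb v s) (comb v s) * form G (comb v t) (comb v t))

/-- `A` belongs to the class with the parameters `r`, `c`, `Δ`. -/
def InClass (r : ℕ) (c Δ : ℝ) {n : ℕ} (A : Matrix (Fin n) (Fin n) ℤ) : Prop :=
  ∃ (G : Matrix (Fin n) (Fin n) ℤ) (v : Fin r → Fin n → ℤ), IsNegativeBasis G v ∧
    IsNonincreasing G A ∧ |((gram G v).det : ℝ)| ≤ Δ ∧ HasDisplacement c G A v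

/-- The group `H` is generated by a normal subgroup `L`, isomorphic to `ℤ^n`, and one element `t`
which acts on `L` by conjugation as the matrix `A`. -/
def IsExtension (H : Type u) [Group H] {n : ℕ} (A : Matrix (Fin n) (Fin n) ℤ) : Prop :=
  ∃ (L : Subgroup H) (t : H) (e : Additive L ≃+ (Fin n → ℤ)), L.Normal ∧
    Subgroup.closure (insert t (L : Set H)) = ⊤ ∧
    ∀ x y : L, (y : H) = t * x * t⁻¹ → e (Additive.ofMul y) = A.mulVec (e (Additive.ofMul x))

theorem result (r : ℕ) (c Δ : ℝ) : ∃ κ : ℝ, 0 < κ ∧
    ∀ (d n : ℕ) (A : Matrix (Fin n) (Fin n) ℤ) (Γ : Type u) [Group Γ] (S : Set Γ) (H : Subgroup Γ),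
      InClass r c Δ A → S.Finite → Subgroup.closure S = ⊤ → H.index ≠ 0 → H.index ≤ d →
      IsExtension H A →
      ∃ ρ : ℝ, Tendsto (fun n : ℕ => Real.log (Nat.card ↥(S ^ n)) / n) atTop (𝓝 ρ) ∧
        (Group.IsVirtuallyNilpotent Γ ∨ κ / (2 * d - 1) ≤ ρ) := by
  obtain ⟨κ, hκ, h⟩ := Q262.UG.group_gap.{u} r c Δ
  refine ⟨κ, hκ, ?_⟩
  intro d n A Γ _ S H hA hfin hgen hH0 hHd hE
  obtain ⟨G, v, hG, hn, hΔ, hc⟩ := hA
  obtain ⟨L, t, e, hL, hLt, hconj⟩ := hE
  exact ⟨_, Pool.Agent.H746UG.tendsto_rho S, h d Γ S H hfin hgen hH0 hHd n G A v hG.symmetric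
    hG.negative hG.positive hn hΔ hc L t e hL hLt hconj⟩

end

end Pool.Agent.Results.MP_d69e80_al.LatticeIsometries
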