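import Mathlib
import Pool.Agent.Q262.UG.Per

/-!
# The growth gap for extensions of lattices by perturbed contractions

Let `r` and `N` be given.  We consider invertible integer matrices `A` of any size `n` which are, in
some Hermitian metric on `ℂ ^ n` (which may be arbitrarily badly conditioned), perturbations of rank
at most `r` and norm at most `N` of a contraction `W` whose characteristic polynomial has integer
coefficients.  Examples: `A` differs from a permutation matrix in boundedly many entries, by bounded
amounts; `A - W` has bounded rank and `W` is an integral matrix of finite order (bounds in an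
invariant metric); the companion matrices of the polynomials of bounded length.  The theorem gives a
number `κ > 0`, depending only on `r` and `N`, such that for all groups `Γ` with a subgroup of index
at most `d` which is an extension of `ℤ ^ n` by a cyclic group acting through `A`, and for ALL finite
generating sets `S` of `Γ`, the growth rate `ρ_S` is at least
`κ / ((2 d - 1) (|S| + 1) ^ (4 d - 2))`, or `Γ` is virtually nilpotent.  The rank `n` is arbitrary, and
so is the number of the eigenvalues of `A` outside the unit disc.

Method.  (1) The logarithm of the product of ALL distinct eigenvalues of `A` outside the unit disc,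
divided by `|S| ^ 2`, bounds the growth rate from below, up to a constant (if it is at most one).  For
every eigenvalue the library's reduction gives a pair `X`, `Y` of words of length at most 3 in `S`
whose products have different digit sums.  Many eigenvalues `z` have the same pair; then the digit sums
of all the numbers `z ^ b`, for one common exponent `b ≠ 0`, are functions of the products of `X` and
`Y`, and the Gaussian argument of the library bounds the number of the values of the whole vector
of digit sums in terms of the product of the distinct numbers `|z ^ b|`.  (2) By the theorem on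
Lehmer's problem for perturbed contractions (helper262, `MP_dc0c68_nt.PerturbedContractions`) the
characteristic polynomial of `A` has Mahler measure one or at least `μ > 1`, and up to factors of
measure one it has bounded length; so the multiplicities of its roots outside the unit disc are
bounded.  (3) If all eigenvalues are roots of unity then the group is virtually nilpotent.
-/

set_option autoImplicit false

namespace Pool.Agent.Results.MP_d69e80_al.PerturbedContractions

open Filter Topology Polynomial
open scoped Pointwise

universe u

noncomputable section

/-- The sum of the squares of the absolute values of the coordinates. -/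
def sqNorm {n : ℕ} (x : Fin n → ℂ) : ℝ := ∑ i, ‖x i‖ ^ 2

/-- The complex matrix `W` does not increase norms. -/
def IsContraction {n : ℕ} (W : Matrix (Fin n) (Fin n) ℂ) : Prop :=
  ∀ x, sqNorm (W.mulVec x) ≤ sqNorm x

/-- `A - W` has rank at most `r` and norm at most `|N|`. -/
def IsPerturbation (r : ℕ) (N : ℝ) {n : ℕ} (W A : Matrix (Fin n) (Fin n) ℂ) : Prop :=
  (A - W).rank ≤ r ∧ ∀ x, sqNorm ((A - W).mulVec x) ≤ N ^ 2 * sqNorm x

/-- For some Hermitian metric `‖U x‖` (`V` is the inverse of `U`) and some complex matrix `W` whose
characteristic polynomial has integer coefficients, `W` is a contraction in this metric and `A` is a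
perturbation of `W` of rank at most `r` and norm at most `|N|` in this metric. -/
def InClass (r : ℕ) (N : ℝ) {n : ℕ} (A : Matrix (Fin n) (Fin n) ℤ) : Prop :=
  ∃ (U V W : Matrix (Fin n) (Fin n) ℂ) (Q : ℤ[X]), U * V = 1 ∧
    W.charpoly = Q.map (Int.castRingHom ℂ) ∧ IsContraction (U * W * V) ∧
    IsPerturbation r N (U * W * V) (U * A.map (Int.castRingHom ℂ) * V)

/-- The group `H` is generated by a normal subgroup `L`, isomorphic to `ℤ^n`, and one element `t`
which acts on `L` by conjugation as the matrix `A`. -/
def IsExtension (H : Type u) [Group H] {n : ℕ} (A : Matrix (Fin n) (Fin n) ℤ) : Prop :=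
  ∃ (L : Subgroup H) (t : H) (e : Additive L ≃+ (Fin n → ℤ)), L.Normal ∧
    Subgroup.closure (insert t (L : Set H)) = ⊤ ∧
    ∀ x y : L, (y : H) = t * x * t⁻¹ → e (Additive.ofMul y) = A.mulVec (e (Additive.ofMul x))

theorem result (r : ℕ) (N : ℝ) : ∃ κ : ℝ, 0 < κ ∧
    ∀ (d n : ℕ) (A : Matrix (Fin n) (Fin n) ℤ) (Γ : Type u) [Group Γ] (S : Set Γ) (H : Subgroup Γ),
      InClass r N A → S.Finite → Subgroup.closure S = ⊤ → H.index ≠ 0 → H.index ≤ d →
      IsExtension H A →
      ∃ ρ : ℝ, Tendsto (fun n : ℕ => Real.log (Nat.card ↥(S ^ n)) / n) atTop (𝓝 ρ) ∧
        (Group.IsVirtuallyNilpotent Γ ∨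
          κ / ((2 * d - 1) * ((S.ncard : ℝ) + 1) ^ (4 * d - 2)) ≤ ρ) := by
  obtain ⟨κ, hκ, h⟩ := Q262.UG.group_gap_per.{u} r N
  refine ⟨κ, hκ, ?_⟩
  intro d n A Γ _ S H hA hfin hgen hH0 hHd hE
  obtain ⟨U, V, W, Q, hUV, hQ, hW, hr, hN⟩ := hA
  obtain ⟨L, t, e, hL, hLt, hconj⟩ := hE
  exact ⟨_, Pool.Agent.H746UG.tendsto_rho S, h d Γ S H hfin hgen hH0 hHd n A U V W Q hUV hQ hr
    hN hW L t e hL hLt hconj⟩

end

end Pool.Agent.Results.MP_d69e80_al.PerturbedContractions
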