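import Mathlib
import Pool.Agent.TH53.UG6
import Pool.Agent.H338R2.FourF
import Pool.Agent.Q168.LA.Final

/-!
# The growth gap holds unless reciprocal non-CM eigenvalues of high degree over abelian fields occur

`G = ⟨S⟩`, `H` is a subgroup of index at most `d`, `Γ = γ_{k+1}(H)` is nilpotent (or `H/[Γ,Γ]` is
not virtually nilpotent).  Then `G` is virtually nilpotent or
`ρ_S ≥ 1 / (11 · 2 ^ (k + 1) (2 d - 1))`, provided that each eigenvalue `z` of each `t ∈ H` on
`ℂ ⊗ Γ^ab` that is an algebraic unit belongs to at least one of the following classes (which may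
vary with `t` and `z`):

* roots of unity;
* numbers `z` that are not conjugate to `z⁻¹` over `ℚ` (for instance because some power of `z` has
  odd degree over `ℚ` and is not `1` or `-1`);
* elements of totally real or CM fields, and more generally numbers for which complex conjugation is
  given by a rational polynomial on the set of their conjugates;
* numbers of degree at most three over a cyclotomic field;
* numbers whose minimal polynomial over `ℤ` has at most four nonzero coefficients modulo some prime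
  number.

The reduction of the growth of `G` to the digit sums of the eigenvalues is that of the starting
library; a power series argument of Smyth's type gives `M ≥ 1.28` for the second class, and the
other classes are theorems on Lehmer's problem in the libraries.
-/

set_option autoImplicit false

namespace Pool.Agent.Results.MP_d69e80_al.ReciprocalObstruction

open Filter Topology Polynomial
open scoped Pointwise commutatorElement TensorProduct ComplexConjugate

universe u

/-- The term `γ_{k+1}(G)` of the lower central series (so `k = 1` gives `G'`). -/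
abbrev gamma (G : Type*) [Group G] (k : ℕ) : Subgroup G := (⊤ : Subgroup G).lowerCentralSeries k

/-- Conjugation by `t` on the abelianization `N^ab` (written additively) of a normal subgroup `N`,
as an endomorphism of the abelian group `N^ab`. -/
noncomputable def conjAb {G : Type*} [Group G] (N : Subgroup G) [N.Normal] (t : G) :
    Module.End ℤ (Additive (Abelianization N)) :=
  (MonoidHom.toAdditive
    (Abelianization.map (MulAut.conjNormal t : N ≃* N).toMonoidHom)).toIntLinearMap

/-- `z` is a zero of a nonzero polynomial of degree at most `m` with coefficients in the cyclotomic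
field generated by the `N`-th roots of unity, for some `N`. -/
def DegreeOverAbelianLe (m : ℕ) (z : ℂ) : Prop :=
  ∃ N : ℕ, 0 < N ∧ ∃ g : ℂ[X], g ≠ 0 ∧ g.natDegree ≤ m ∧
    (∀ i, g.coeff i ∈ IntermediateField.adjoin ℚ {w : ℂ | w ^ N = 1}) ∧ g.eval z = 0

/-- `z` is a root of unity, or `z⁻¹` is not a conjugate of `z` over `ℚ`, or complex conjugation is
given by a rational polynomial on the conjugates of `z`, or `z` has degree at most three over a
cyclotomic field, or the minimal polynomial of `z` over `ℤ` has at most four nonzero coefficients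
modulo some prime number. -/
def Tame (z : ℂ) : Prop :=
  (∃ n : ℕ, 0 < n ∧ z ^ n = 1) ∨
  aeval z⁻¹ (minpoly ℚ z) ≠ 0 ∨
  (∃ h : ℚ[X], ∀ w : ℂ, aeval w (minpoly ℚ z) = 0 → conj w = aeval w h) ∨
  DegreeOverAbelianLe 3 z ∨
  ∃ p : ℕ, p.Prime ∧ ((minpoly ℤ z).map (Int.castRingHom (ZMod p))).support.card ≤ 4

open Pool.Agent.W963.GE Pool.Agent.TH53.UG Pool.Agent.H338R2

lemma minpolyQ {x : ℂ} (hx : IsIntegral ℤ x) (z : ℂ) :
    aeval z (minpoly ℚ x) = 0 ↔ aeval z (minpoly ℤ x) = 0 := by
  rw [minpoly.isIntegrallyClosed_eq_field_fractions' ℚ hx, aeval_map_algebraMap]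

lemma noCyc {x : ℂ} (hx : IsIntegral ℤ x) (h0 : x ≠ 0) (hroot : ∀ n : ℕ, 0 < n → x ^ n ≠ 1) :
    NoCyc (minpoly ℤ x) := by
  intro z hz
  have hz' : aeval z (minpoly ℤ x) = 0 := by
    rw [aeval_def, ← eval_map]
    exact hz
  have hirr : minpoly ℚ x = minpoly ℚ z := by
    apply minpoly.eq_of_irreducible_of_monic (minpoly.irreducible hx.tower_top)
      ((minpolyQ hx z).2 hz') (minpoly.monic hx.tower_top)
  have key : ∀ q : ℚ[X], aeval z q = 0 → aeval x q = 0 := by
    intro q hq
    have h1 := minpoly.dvd ℚ z hq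
    rw [← hirr] at h1
    obtain ⟨r, hr⟩ := h1
    rw [hr, map_mul, minpoly.aeval, zero_mul]
  refine ⟨?_, ?_⟩
  · rintro rfl
    have := key X (by simp)
    simp only [aeval_X] at this
    exact h0 this
  · intro n hn h
    have := key (X ^ n - 1) (by simp [h])
    simp only [map_sub, map_pow, aeval_X, map_one] at this
    exact hroot n hn (sub_eq_zero.1 this)

lemma four_of_nonrec {x : ℂ} (hx : IsIntegral ℤ x) (h0 : x ≠ 0)
    (hroot : ∀ n : ℕ, 0 < n → x ^ n ≠ 1) (h : aeval x⁻¹ (minpoly ℚ x) ≠ 0) :
    2 ≤ MM x ^ 4 := by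
  have hirr : Irreducible (minpoly ℤ x) := minpoly.irreducible hx
  refine two_le_of_nonrecip hirr (noCyc hx h0 hroot) ?_
  intro hcon
  apply h
  rw [minpolyQ hx]
  have hrev : aeval x⁻¹ (minpoly ℤ x).reverse = 0 := by
    have : Invertible x := invertibleOfNonzero h0
    have h1 := (eval₂_reverse_eq_zero_iff (algebraMap ℤ ℂ) x (minpoly ℤ x)).2 (minpoly.aeval ℤ x)
    rw [invOf_eq_inv] at h1
    exact h1
  rcases hcon with h1 | h1
  · rwa [h1] at hrev
  · rw [h1, map_neg, neg_eq_zero] at hrev
    exact hrev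

lemma log_of_four {x : ℂ} (hx : IsIntegral ℤ x) (h : 2 ≤ MM x ^ 4) :
    1 / 11 ≤ Real.log (base (MM x)) := by
  have hM : 1 ≤ MM x := MM_ge x hx
  have h1 : (1.4142 : ℝ) ≤ MM x ^ 2 := by
    by_contra hcon
    push Not at hcon
    have h2 : (MM x ^ 2) ^ 2 < (1.4142 : ℝ) ^ 2 := pow_lt_pow_left₀ hcon (by positivity) (by norm_num)
    have h3 : (MM x ^ 2) ^ 2 = MM x ^ 4 := by ring
    rw [h3] at h2
    have h4 : (1.4142 : ℝ) ^ 2 < 2 := by norm_num
    linarith
  have h2 : (0.29 : ℝ) ≤ 1 - 1 / MM x ^ 2 := by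
    have h3 : 1 / MM x ^ 2 ≤ 1 / 1.4142 := one_div_le_one_div_of_le (by norm_num) h1
    have h4 : (1 : ℝ) / 1.4142 ≤ 0.71 := by norm_num
    linarith
  have h3 := base_exp (zero_lt_one.trans_le hM) h2 (by norm_num) (by norm_num)
  refine le_trans ?_ h3
  norm_num

/-- If all eigenvalues of the elements `t ∈ H` on `ℂ ⊗ Γ^ab` that are algebraic units are tame, then
`ρ_S` exists and `G` is virtually nilpotent or `ρ_S ≥ 1 / (11 · 2 ^ (k + 1) (2 d - 1))`. -/
theorem result (k d : ℕ) (hk : 1 ≤ k) (G : Type u) [Group G] (S : Set G) (hfin : S.Finite)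
    (hgen : Subgroup.closure S = ⊤) (H : Subgroup G) (hH0 : H.index ≠ 0) (hHd : H.index ≤ d)
    (hnil : Group.IsNilpotent (gamma H k) ∨
      ¬ Group.IsVirtuallyNilpotent (H ⧸ ⁅gamma H k, gamma H k⁆))
    (htame : ∀ t : H, ∀ z : ℂ, IsIntegral ℤ z → IsIntegral ℤ z⁻¹ →
      Module.End.HasEigenvalue (LinearMap.baseChange ℂ (conjAb (gamma H k) t) :
        Module.End ℂ (ℂ ⊗[ℤ] Additive (Abelianization (gamma H k)))) z → Tame z) :
    ∃ ρ : ℝ, Tendsto (fun n : ℕ => Real.log (Nat.card ↥(S ^ n)) / n) atTop (𝓝 ρ) ∧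
      (Group.IsVirtuallyNilpotent G ∨ 1 / (11 * 2 ^ (k + 1) * (2 * d - 1)) ≤ ρ) := by
  refine ⟨H746UG.rho S, H746UG.tendsto_rho S, ?_⟩
  have e : (1 : ℝ) / (11 * 2 ^ (k + 1) * (2 * d - 1)) =
      (1 / 11) / (2 ^ (k + 1) * (2 * d - 1)) := by
    rw [div_div]
    congr 1
    ring
  rw [e]
  refine gap_general hk S hfin hgen H hH0 hHd hnil ?_ ?_
  · have := Real.log_two_gt_d9
    linarith
  · intro hMf t b x hx0 hx hp
    have hxi : IsIntegral ℤ x := integral_of_root _ b hp
    have hx' : ∀ n : ℕ, 0 < n → x ^ n ≠ 1 := fun n hn => hx n hn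
    by_cases hi : IsIntegral ℤ x⁻¹
    · have hM1 : 1 ≤ MM x := MM_ge x hxi
      have h4 : 2 ≤ MM x ^ 4 := by
        rcases htame t x hxi hi (eig_of_root (act (gam H k) t) b hp (minpoly.aeval ℤ x)) with
          h | h | h | h | h
        · obtain ⟨n, hn, h⟩ := h
          exact absurd h (hx' n hn)
        · exact four_of_nonrec hxi hx0 hx' h
        · obtain ⟨h, hh⟩ := h
          have h1 := cm_bound hxi hx0 hx (h := h) (fun z hz => hh z ((minpolyQ hxi z).2 hz))
          have h2 := two_le_deg hxi hx0 hi hx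
          have h3 : (27 / 4 : ℝ) ^ 2 ≤ MM x ^ 8 :=
            (pow_le_pow_right₀ (by norm_num) h2).trans h1
          have h5 : MM x ^ 8 = (MM x ^ 4) ^ 2 := by ring
          by_contra hcon
          push Not at hcon
          have h6 : (MM x ^ 4) ^ 2 < 2 ^ 2 := pow_lt_pow_left₀ hcon (by positivity) (by norm_num)
          rw [← h5] at h6
          norm_num at h3
          linarith
        · obtain ⟨N, hN, g, hg0, hg3, hgc, hgx⟩ := h
          have h1 : 1.21 < MM x := Pool.Agent.Q168.LA.main (minpoly.monic hxi).ne_zero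
            (minpoly.aeval ℤ x) hx0 hx' hN hg0 hg3 hgc hgx
          calc (2 : ℝ) ≤ 1.21 ^ 4 := by norm_num
            _ ≤ MM x ^ 4 := pow_le_pow_left₀ (by norm_num) h1.le 4
        · obtain ⟨p, hp', hcard⟩ := h
          have : Fact p.Prime := ⟨hp'⟩
          have h1 := four_main p (minpoly ℤ x) (noCyc hxi hx0 hx') 1 one_ne_zero
            (Or.inl (by simpa using Polynomial.reverse_C (1 : ZMod p))) (by
              rw [one_mul]; exact hcard)
          rw [natDegree_one, add_zero, pow_mul] at h1
          by_contra hcon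
          push Not at hcon
          have h2 : (MM x ^ 4) ^ (minpoly ℤ x).natDegree < 2 ^ (minpoly ℤ x).natDegree :=
            pow_lt_pow_left₀ hcon (by positivity) (minpoly.natDegree_pos hxi).ne'
          exact absurd h1 (not_le.2 h2)
      exact (log_of_four hxi h4).trans (eta_ge x hx0 hxi)
    · rw [H746UG.eta_eq_log_two x hx0 (fun h => hi h.2)]
      have := Real.log_two_gt_d9
      linarith

end Pool.Agent.Results.MP_d69e80_al.ReciprocalObstruction
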